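import Pool.Agent.Nil.Final

set_option autoImplicit false

namespace Pool.Agent.Results.MP_734462_al.NoUniversal

/-- For every countable field `F` and every nil `F`-algebra `A` of countable dimension there is a
nil `F`-algebra `N` of countable dimension which is not a homomorphic image of `A`. -/
theorem result :
    ∀ (F : Type) [Field F] [Countable F]
      (A : Type) [NonUnitalRing A] [Module F A] [IsScalarTower F A A] [SMulCommClass F A A],
      (∀ a : A, ∃ n : ℕ, (fun x : A => a * x)^[n] a = 0) →
      Module.rank F A ≤ Cardinal.aleph0 →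
      ∃ (N : Type) (_ : NonUnitalRing N) (_ : Module F N) (_ : IsScalarTower F N N)
        (_ : SMulCommClass F N N),
        (∀ b : N, ∃ n : ℕ, (fun x : N => b * x)^[n] b = 0) ∧
        Module.rank F N ≤ Cardinal.aleph0 ∧
        ¬ ∃ f : A →ₙₐ[F] N, Function.Surjective f := by
  intro F _ _ A _ _ _ _ hnil hrank
  exact Pool.Agent.Nil.nonuniv_nil F A hnil hrank

end Pool.Agent.Results.MP_734462_al.NoUniversal
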